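import Mathlib
import Pool.Agent.H932R6.FinalR

set_option autoImplicit false

/-!
# The uniform Harbourne-Hirschowitz conjecture for `m ≤ n ^ k`, in all degrees but at most one

For every `k` and `ε > 0` there is an `N` such that for `n ≥ N` general points of the complex
projective plane and every multiplicity `1 ≤ m ≤ n ^ k`, the space of forms of degree `d`
vanishing to order `m` at the points has the expected dimension for every `d` with
`|2 d + 3 - √n - 2 √n m| ≥ ε`.
-/

namespace Pool.Agent.Results.MP_d03834_ag.UniformAllButOne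

theorem result (k : ℕ) (ε : ℝ) (hε : 0 < ε) : ∃ N : ℕ, ∀ n : ℕ, N ≤ n → ∀ m : ℕ, 0 < m → m ≤ n ^ k →
    ∃ F : MvPolynomial (Fin n × Fin 2) ℂ, F ≠ 0 ∧
      ∀ P : Fin n → Fin 2 → ℂ,
        MvPolynomial.eval (fun ij : Fin n × Fin 2 => P ij.1 ij.2) F ≠ 0 →
        ∀ d : ℕ, 0 < d → ε ≤ |2 * (d : ℝ) + 3 - Real.sqrt n - 2 * (Real.sqrt n * m)| →
          Module.finrank ℂ
            ↥(MvPolynomial.homogeneousSubmodule (Fin 3) ℂ d ⊓
              Submodule.restrictScalars ℂ
                (⨅ i : Fin n,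
                  (Ideal.span
                    ({MvPolynomial.X 0 - MvPolynomial.C (P i 0) * MvPolynomial.X 2,
                      MvPolynomial.X 1 - MvPolynomial.C (P i 1) * MvPolynomial.X 2} :
                      Set (MvPolynomial (Fin 3) ℂ))) ^ m))
          = Nat.choose (d + 2) 2 - n * Nat.choose (m + 1) 2 := by
  obtain ⟨N, hN, h⟩ := H932R6.exists_data (k + 1) hε
  refine ⟨N, fun n hn m hm hmk => ?_⟩
  obtain ⟨u, v, δ, σ, hD⟩ := h n hn
  obtain ⟨F, hF, hF'⟩ := H932R6.win_uniformR (L := ℂ) hD (by omega) (by omega) hm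
    (hmk.trans (Nat.pow_le_pow_right (by omega) (by omega)))
  refine ⟨F.map (algebraMap ℚ ℂ), H932R3.map_ne_zero_of hF, fun P hP d _ hd => ?_⟩
  rw [MvPolynomial.eval_map] at hP
  have h1 := hF' P hP d (H932R6.WinE.uni (by omega) hd)
  unfold H932R3.ExpDim at h1
  rw [Finset.sum_const, Finset.card_univ, Fintype.card_fin, smul_eq_mul] at h1
  exact h1

end Pool.Agent.Results.MP_d03834_ag.UniformAllButOne
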