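import Mathlib
import Pool.Agent.H932R3.Finals

set_option autoImplicit false

/-!
# The uniform Harbourne-Hirschowitz conjecture in all but three degrees, `m` up to `n ^ (3/2) / 16`

For `n ≥ 100` general points of the complex projective plane and a multiplicity `m ≥ 1` with
`256 m ^ 2 ≤ n ^ 3` (or `n ≡ 0, 1 mod 4` and `100 m ≤ n ^ 2`), the space of forms of degree `d`
vanishing to order `m` at the points has the expected dimension for every `d` with
`|2 d + 3 - √n - 2 √n m| ≥ 3`, that is, for all but at most three consecutive values of `d`.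
-/

namespace Pool.Agent.Results.MP_d03834_ag.UniformAllButThree

theorem result (n : ℕ) (hn : 100 ≤ n) (m : ℕ) (hm : 0 < m)
    (h : 256 * m ^ 2 ≤ n ^ 3 ∨ (n % 4 ≤ 1 ∧ 100 * m ≤ n ^ 2)) :
    ∃ F : MvPolynomial (Fin n × Fin 2) ℂ, F ≠ 0 ∧
      ∀ P : Fin n → Fin 2 → ℂ,
        MvPolynomial.eval (fun ij : Fin n × Fin 2 => P ij.1 ij.2) F ≠ 0 →
        ∀ d : ℕ, 0 < d → 3 ≤ |2 * (d : ℝ) + 3 - Real.sqrt n - 2 * (Real.sqrt n * m)| →
          Module.finrank ℂ
            ↥(MvPolynomial.homogeneousSubmodule (Fin 3) ℂ d ⊓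
              Submodule.restrictScalars ℂ
                (⨅ i : Fin n,
                  (Ideal.span
                    ({MvPolynomial.X 0 - MvPolynomial.C (P i 0) * MvPolynomial.X 2,
                      MvPolynomial.X 1 - MvPolynomial.C (P i 1) * MvPolynomial.X 2} :
                      Set (MvPolynomial (Fin 3) ℂ))) ^ m))
          = Nat.choose (d + 2) 2 - n * Nat.choose (m + 1) 2 := by
  obtain ⟨F, hF, hF'⟩ := H932R3.crit_uniform (L := ℂ) hn hm h
  refine ⟨F.map (algebraMap ℚ ℂ), H932R3.map_ne_zero_of hF, fun P hP d _ hd => ?_⟩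
  rw [MvPolynomial.eval_map] at hP
  have h1 := hF' P hP d hd
  unfold H932R3.ExpDim at h1
  rw [Finset.sum_const, Finset.card_univ, Fintype.card_fin, smul_eq_mul] at h1
  exact h1

end Pool.Agent.Results.MP_d03834_ag.UniformAllButThree
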