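import Mathlib
import Pool.Agent.H932R3.Finals

set_option autoImplicit false

/-!
# The uniform Harbourne-Hirschowitz conjecture for every multiplicity, up to relative error `n ^ -k`

For every `k` there is an `N` such that for all `n ≥ N`, all `m` and all `d > 0` with
`d ≤ (1 - n ^ (-k)) √n m` or `d ≥ (1 + n ^ (-k)) √n m + √n`, the space of forms of degree `d`
vanishing to order `m` at `n` general points of the complex projective plane has the expected
dimension.
-/

namespace Pool.Agent.Results.MP_d03834_ag.UniformEveryMultiplicity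

theorem result (k : ℕ) : ∃ N : ℕ, ∀ n : ℕ, N ≤ n → ∀ m : ℕ,
    ∃ F : MvPolynomial (Fin n × Fin 2) ℂ, F ≠ 0 ∧
      ∀ P : Fin n → Fin 2 → ℂ,
        MvPolynomial.eval (fun ij : Fin n × Fin 2 => P ij.1 ij.2) F ≠ 0 →
        ∀ d : ℕ, 0 < d →
          ((d : ℝ) ≤ (1 - 1 / (n : ℝ) ^ k) * (Real.sqrt n * m) ∨
            (1 + 1 / (n : ℝ) ^ k) * (Real.sqrt n * m) + Real.sqrt n ≤ d) →
          Module.finrank ℂ
            ↥(MvPolynomial.homogeneousSubmodule (Fin 3) ℂ d ⊓
              Submodule.restrictScalars ℂ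
                (⨅ i : Fin n,
                  (Ideal.span
                    ({MvPolynomial.X 0 - MvPolynomial.C (P i 0) * MvPolynomial.X 2,
                      MvPolynomial.X 1 - MvPolynomial.C (P i 1) * MvPolynomial.X 2} :
                      Set (MvPolynomial (Fin 3) ℂ))) ^ m))
          = Nat.choose (d + 2) 2 - n * Nat.choose (m + 1) 2 := by
  obtain ⟨N, hN, h⟩ := H932R3.wedge_exp k
  refine ⟨N, fun n hn m => ?_⟩
  obtain ⟨F, hF, hF'⟩ := h ℂ n hn (fun _ => m)
  refine ⟨F.map (algebraMap ℚ ℂ), H932R3.map_ne_zero_of hF, fun P hP d hd0 hd => ?_⟩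
  rw [MvPolynomial.eval_map] at hP
  have h0 : (0 : ℝ) < n := by
    have : 0 < n := by omega
    exact_mod_cast this
  have h2 : (0 : ℝ) < Real.sqrt n := Real.sqrt_pos.2 h0
  have h3 : Real.sqrt n * Real.sqrt n = n := Real.mul_self_sqrt (Nat.cast_nonneg n)
  have h1 := hF' P hP d hd0 (by
    rcases hd with hd | hd
    · left
      rw [Finset.sum_const, Finset.card_univ, Fintype.card_fin, nsmul_eq_mul]
      calc Real.sqrt n * d ≤ Real.sqrt n * ((1 - 1 / (n : ℝ) ^ k) * (Real.sqrt n * m)) :=
            mul_le_mul_of_nonneg_left hd h2.le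
        _ = (1 - 1 / (n : ℝ) ^ k) * (n * m) := by
            linear_combination ((1 - 1 / (n : ℝ) ^ k) * m) * h3
    · right
      intro a
      exact hd)
  unfold H932R3.ExpDim at h1
  rw [Finset.sum_const, Finset.card_univ, Fintype.card_fin, smul_eq_mul] at h1
  exact h1

end Pool.Agent.Results.MP_d03834_ag.UniformEveryMultiplicity
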