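import Mathlib
import Pool.Agent.H932R2.Main

set_option autoImplicit false

/-!
# The uniform Harbourne-Hirschowitz conjecture for multiplicities linear in the number of points

For `n > 9` general points of the complex projective plane and a multiplicity `m ≥ 1` with
`m ≤ n - 6 √n + 11` (or satisfying the slightly weaker numerical condition below), the space of
forms of degree `d` vanishing to order `m` at the points has the expected dimension for every `d`.
-/

namespace Pool.Agent.Results.MP_d03834_ag.UniformSHGHLinear

theorem result (n : ℕ) (hn : 9 < n) (m : ℕ) (hm : 0 < m)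
    (h : (m : ℝ) ≤ n - 6 * Real.sqrt n + 11 ∨
      ∃ δ κ : ℕ, 2 ≤ δ ∧ n = δ ^ 2 + 2 * κ ∧
        (κ = 0 ∨ n * m * (m + 1) < δ ^ 2 * (δ ^ 2 + 3) * (δ ^ 2 + 4))) :
    ∃ F : MvPolynomial (Fin n × Fin 2) ℂ, F ≠ 0 ∧
      ∀ P : Fin n → Fin 2 → ℂ,
        MvPolynomial.eval (fun ij : Fin n × Fin 2 => P ij.1 ij.2) F ≠ 0 →
        ∀ d : ℕ, 0 < d →
          Module.finrank ℂ
            ↥(MvPolynomial.homogeneousSubmodule (Fin 3) ℂ d ⊓
              Submodule.restrictScalars ℂ
                (⨅ i : Fin n,
                  (Ideal.span
                    ({MvPolynomial.X 0 - MvPolynomial.C (P i 0) * MvPolynomial.X 2,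
                      MvPolynomial.X 1 - MvPolynomial.C (P i 1) * MvPolynomial.X 2} :
                      Set (MvPolynomial (Fin 3) ℂ))) ^ m))
          = Nat.choose (d + 2) 2 - n * Nat.choose (m + 1) 2 := by
  have hcond : ∃ δ κ, H932R2.Cond n m δ κ := by
    rcases h with h | ⟨δ, κ, h1, h2, h3⟩
    · exact H932R2.cond_of_le hn h
    · exact ⟨δ, κ, h1, by rw [h2]; ring, by rcases h3 with h3 | h3
                                            · exact Or.inl h3
                                            · right
                                              simpa [pow_two] using h3⟩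
  obtain ⟨F, hF, hF'⟩ := H932R2.points_main (K := ℂ) hn hm hcond (fun k hk _ => by
    exact_mod_cast hk.ne')
  exact ⟨F, hF, fun P hP d _ => hF' P hP d⟩

end Pool.Agent.Results.MP_d03834_ag.UniformSHGHLinear
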